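import Pool.Agent.H51BS.BlowUps

/-!
# Beilinson's conjecture for blow-ups in curves and one rational function field
-/

set_option autoImplicit false

namespace Pool.Agent.Results.MP_15b3df_nt.BlowUpsInCurves

open Pool.Agent.H51BS.Integral

/-- The following are equivalent:

1. Beilinson's conjecture (Q1) holds for `i = 0` and `i = 1` and all `m < i/2` for all blow-ups of
   projective spaces along curves (with regular models as in `BlowUpTheory`);
2. `Hʲ_M(Z_{/ℤ}, ℚ(w)) = 0` for all curves `Z`, all `j ≤ 0` and `w ≥ 1`;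
3. `Hʲ(E, ℚ(w)) = 0` for all fields `E` of transcendence degree at most one over `ℚ`, all `j ≤ 0`
   and `w ≥ 1`;
4. `Hʲ(ℚ(t₁, t₂), ℚ(w))` is finite dimensional for all `j ≤ 1` and `w ≥ 2`. -/
theorem result (M : BlowUpTheory) :
    [BlowUpsInCurves M, CurvesIntegralZero M, FunctionFieldsZero M, PlaneFiniteAll M].TFAE :=
  main_blowUps M

end Pool.Agent.Results.MP_15b3df_nt.BlowUpsInCurves
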