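import Pool.Agent.Q56.XL.Final
set_option autoImplicit false

/-!
Beilinson's conjecture on the regulators (Q1) on the powers of a variety: an exact law. Let `X` be a
smooth projective variety over `ℚ` whose Chow motive is finite-dimensional in the sense of Kimura and
O'Sullivan (for example a product of curves, an abelian variety, or a variety dominated by such
varieties), and fix `r = 2 n - (i + 1) ≥ 2`. The dimensions of the kernels and of the cokernels of
the regulators on the powers of `X`, divided by the rank of the group of cycles modulo numerical
equivalence, converge to natural numbers or to infinity; the limits are both zero if and only if the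
regulators are isomorphisms for all powers; and if a limit is finite, the kernels (cokernels) are
given by finitely many motives, and the limit is the sum of their ranks.
-/

namespace Pool.Agent.Results.MP_15b3df_nt.ExactLaw

open Pool.Agent.H914 Pool.Agent.Y133.Half Pool.Agent.Q55.Rate Pool.Agent.Q56.ZO
  Pool.Agent.Q56.XL

universe u v w

/-- Let `φ : A → B` be a natural map between theories on which algebraic correspondences act, with
coefficients in the coefficient field of a Weil cohomology theory `W`: for example Beilinson's
regulators for varieties over `ℚ`, `W(Y)` the cohomology with coefficients in `ℝ`, `A(Y)` the sum of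
the groups `H_M^(i+1)(Y, ℚ(n))_ℤ ⊗ ℝ` and `B(Y)` the sum of the groups `H_D^(i+1)(Y_ℝ, ℝ(n))` over
all `(i, n)` with `2 n - (i + 1) = r` fixed.
Let `X` be a variety such that numerically trivial correspondences of the powers of `X` are
nilpotent on the cohomology and homologically trivial ones act nilpotently on `A` and `B` (this
holds if the Chow motive of `X` is finite-dimensional). Then:

(1) the dimensions of the kernels of `φ` on the powers of `X` obey the exact law `ExactLaw` with a
limit `N` in `ℕ ∪ {∞}`; `N = 0` if and only if `φ` is injective on all powers of `X`; if `φ` is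
injective on all direct factors of rank less than `d` of the powers of `X`, then `N = 0` or `N ≥ d`;

(2) the dimensions of the cokernels of `φ` on the powers of `X` obey the exact law with a limit `N`
in `ℕ ∪ {∞}`; `N = 0` if and only if `φ` is surjective on all powers of `X`; if `φ` is surjective on
all direct factors of rank less than `d` of the powers of `X`, then `N = 0` or `N ≥ d`. -/
theorem result {k : Type u} [Field k] {𝒱 : VarClass k} {ops : CycleOps 𝒱}
    (W : WeilCohomology.{u, v} ops) (A B : CycTheory.{u, v, w} W) (φ : NatMap A B) (X : 𝒱.Obj)
    (hW : NumTrivialNilpotent W X) (hA : HomTrivialNilpotent A X)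
    (hB : HomTrivialNilpotent B X) :
    (∃ N : ℕ∞, ExactLaw W X (dimKer φ) N ∧
      (N = 0 ↔ ∀ n, Function.Injective (φ.f (X := pw X n))) ∧
      ∀ d : ℕ, InjectiveBelow φ X d → N = 0 ∨ (d : ℕ∞) ≤ N) ∧
    ∃ N : ℕ∞, ExactLaw W X (dimCoker φ) N ∧
      (N = 0 ↔ ∀ n, Function.Surjective (φ.f (X := pw X n))) ∧
      ∀ d : ℕ, SurjectiveBelow φ X d → N = 0 ∨ (d : ℕ∞) ≤ N :=
  exactLaw_map φ hW hA hB

end Pool.Agent.Results.MP_15b3df_nt.ExactLaw
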