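import Pool.Agent.Q212.LF.ADom
import Pool.Agent.Q212.LF.AGen
set_option autoImplicit false

/-!
Unramified classes with independent regulators in the Milnor K-theory of fibrations over the affine
space, whose fibres are the members of the pencil `W(z_0, ..., z_q) = t` of hypersurfaces in the
torus, for arbitrary products `W` of Laurent polynomials with affinely independent exponents and
roots of unity as coefficients, and of cyclotomic polynomials in a monomial, with `0` in the
interior of the Newton polytope: on the varieties `W(z) = λ g(x) ∏_e L_e(x)` of dimension
`n + 1 + q` over a number field, where the `L_e` are the equations of arbitrary distinct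
hyperplanes, with a vertex, in the affine space of dimension `n + 1`, and `g` is an arbitrary
polynomial which does not vanish at the vertices of the arrangement, there is one unramified class
for each basis without broken circuits (`binom(m, n + 1)` for `m + 1` hyperplanes in general
position), with linearly independent regulators, for all large and sufficiently divisible `λ`.
-/

namespace Pool.Agent.Results.MP_15b3df_nt.LaurentFibrations

open Pool.Agent.Q212.LF

open Pool.Agent.TH826.GA (cm vtx)

open Pool.Agent.Y797.IV (Clears GenPos)

/-- Let `σ` be a complex embedding of the number field `K`. Let `W` be a Laurent polynomial in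
`z_0, ..., z_q` over `K`, which is a product of Laurent polynomials `∑_i ε_i z^(e_i)` with affinely
independent exponents `e_i` and roots of unity `ε_i`, and of polynomials `f(z^u)`, where `u ≠ 0` and
`f` is a monic divisor of some `X^N - 1`, such that `0` lies in the interior of the Newton polytope
of `W`. Let `L_e = ∑_j c_{e,j} x_j - a_e`, `0 ≤ e ≤ m`, be affine forms in `n + 1` variables with
integral coefficients in `K`, no one of which is a multiple of another one (and not all
determinants `det (c_{T_i,j})` of `n + 1` of the forms are zero), and let `g` be a polynomial in
these variables with integral coefficients, which does not vanish at the vertices of the arrangement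
(the common zeros of `n + 1` forms with nonzero determinant). An algebraic integer `D ≠ 0` of `K`
clears the denominators, if the coordinates of `D p` are integral for all vertices `p`; there are
such `D` (even positive rational integers). There is a constant `C` such that for all these `D`, all
algebraic integers `μ` of `K` and `λ = μ D ^ (m + 1 + deg g)` with `|σ λ| ≥ C`:
the coordinate ring of the hypersurface `W(z) = Φ(x)`, `Φ = λ g ∏_e L_e`, of dimension `n + 1 + q`
in the product of the torus of the `z` and the affine space of the `x`, is a domain, if `n ≥ 1`,
`deg g ≤ m` and the linear parts of the forms are not zero; for all `T = (T_0, ..., T_n)` with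
nonzero determinant the symbol `{u_0, ..., u_n, z_0, ..., z_q}`, `u_i = κ_i L_{T_i} / L_{h_i}`, on
the open part `Φ ≠ 0` is unramified at all discrete valuations of all fields in which the ring of
the open part maps, where `h_i` is the largest index such that the determinant of `T` with `T_i`
replaced by `h_i` is not zero and `κ_i` is the quotient of this determinant and of the one of `T`;
and there are tori `Γ_T` of dimension `n + 1 + q` in the complex points (over `σ`) of the
open part, at all points of which some partial derivative `∂Φ/∂x_j` is not `0` (so that the
hypersurface is smooth there), such that the determinant of the regulators of the symbols of the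
`T'` on the tori `Γ_T` does not vanish; here `T` and `T'` run through all `T_0 < ... < T_n` with
nonzero determinant such that every `T_i` can be replaced by a later form (with nonzero
determinant), and every other form which vanishes at the vertex of `T` can replace a later form
`T_i`. If the forms are in general position, these are all `T_0 < ... < T_n < m`. -/
theorem result.{u, v} (n m q : ℕ) (K : Type u) [Field K] [NumberField K] (σ : K →+* ℂ)
    (W : Lau K (q + 1)) (hW : Tempered W) (c : Fin (m + 1) → Fin (n + 1) → K)
    (a : Fin (m + 1) → K) (hc : ∀ e j, IsIntegral ℤ (c e j)) (ha : ∀ e, IsIntegral ℤ (a e))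
    (hd : Dist c a) (hR : ∃ T : Fin (n + 1) → Fin (m + 1), (cm c T).det ≠ 0)
    (g : MvPolynomial (Fin (n + 1)) K) (hg : ∀ k, IsIntegral ℤ (g.coeff k))
    (hgv : ∀ T : Fin (n + 1) → Fin (m + 1), (cm c T).det ≠ 0 →
      MvPolynomial.eval (vtx c a T) g ≠ 0) :
    (GenPos c a → ∀ T, NbcT c a T ↔ StrictMono T ∧ ∀ i, T i < Fin.last m) ∧
    (∃ D : ℕ, Clears c a (D : K)) ∧
    ∃ C : ℝ, ∀ D mu lam : K, Clears c a D → IsIntegral ℤ mu →
      lam = mu * D ^ (m + 1 + g.totalDegree) → C ≤ ‖σ lam‖ →
        (1 ≤ n → g.totalDegree ≤ m → (∀ e, ∃ j, c e j ≠ 0) →
          IsDomain (HRing W (gPhi lam g c a))) ∧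
        (∀ T : Fin (n + 1) → Fin (m + 1), (cm c T).det ≠ 0 →
          UnramAt.{u, v} (bent W lam g c a T)) ∧
        IndepReg σ W lam g c a := by
  refine ⟨fun hG T => nbc_iff hG T, Pool.Agent.Y797.IV.exists_clears c a, ?_⟩
  obtain ⟨C, hC1, hC⟩ := exists_indepReg (g := g) σ hW hd hgv
  refine ⟨C, fun D mu lam hD hmu hlam hl => ⟨fun hn hgd hne => ?_, fun T hT => ?_,
    hC lam hl⟩⟩
  · have hl0 : lam ≠ 0 := by
      intro h0
      rw [h0, map_zero, norm_zero] at hl
      linarith
    have hg0 : g ≠ 0 := by
      obtain ⟨T, hT⟩ := hR
      intro h0
      refine hgv T hT ?_
      rw [h0, map_zero]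
    exact isDomain_arr (hW.ne_zero (Nat.succ_ne_zero q)) hl0 hR hd hne hn hg0 hgd
  · exact unramAt_bent hW hc ha hg hD hmu hlam hT

end Pool.Agent.Results.MP_15b3df_nt.LaurentFibrations
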