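import Pool.Agent.Q284.BD.Fn

/-!
# Beilinson's conjecture on `L*(X, m)`: a factor in `L` over the subfields of `L` may be removed

`Φ p` is a rational matrix with `det (1 - T Φ p)` the Euler polynomial of `M = h^i(X)(m)` at `p`.
`Reg F c` says that `c` is a Beilinson regulator `R_D(X_F)` (determinant in rational bases), for every
number field `F`; `Descent Reg L` says that the regulators of the subfields of `L` are the determinants
of one `Gal(L/ℚ)`-equivariant isomorphism on the invariants.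
-/

set_option autoImplicit false

namespace Pool.Agent.Results.MP_15b3df_nt.WeakOverTwoFields

open NumberField Pool.Agent.Q284.DL Pool.Agent.Q284.BD Pool.Agent.Q5.SO Pool.Agent.Q5.DP

theorem result {r : ℕ} (w : ℤ) (Φ : ℕ → Matrix (Fin r) (Fin r) ℚ) (hΦ : HasWeights w Φ)
    (Reg : ∀ (F : Type) [Field F] [NumberField F], ℂ → Prop) :
    -- (1) the relation between leading coefficients and regulators
    (∀ (L : Type) [Field L] [NumberField L] [IsGalois ℚ L], Descent Reg L →
      ∀ (ι : Type) [Fintype ι] (F : ι → Type) [∀ j, Field (F j)] [∀ j, NumberField (F j)]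
        (_ : ∀ j, F j →+* L) (n : ι → ℤ),
        (∀ g : AlgebraicClosure ℚ ≃+* AlgebraicClosure ℚ, ∑ j, n j * (fixed (F j) g : ℤ) = 1) →
      ∀ c' z : ι → ℂ, (∀ j, Reg (F j) (c' j)) → (∀ j, IsLead w Φ (F j) (z j)) →
      ∀ c : ℂ, Reg ℚ c → ∃ z₀, IsLead w Φ ℚ z₀ ∧ ∃ q : ℚ, q ≠ 0 ∧
        z₀ / c = q * ∏ j, (z j / c' j) ^ (n j)) ∧
    -- (2) the weak form over `L` and `L'` implies the strong form over `ℚ`
    (∀ (L L' : Type) [Field L] [NumberField L] [IsGalois ℚ L] [Field L'] [NumberField L']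
      [IsGalois ℚ L'], Disj L L' → Descent Reg L → Descent Reg L' →
      WeakOver w Φ Reg L → WeakOver w Φ Reg L' → ∀ c : ℂ, Reg ℚ c →
      ∃ z : ℂ, z ≠ 0 ∧ IsLead w Φ ℚ z ∧ ∃ q : ℚ, z = q * c) ∧
    -- (3) it is enough to know the weak form over the hyperelementary subfields
    (∀ (L : Type) [Field L] [NumberField L] [IsGalois ℚ L],
      (∀ (F : Type) [Field F] [NumberField F] [Algebra F L], Hyper (L ≃ₐ[F] L) →
        Weak w Φ Reg L F) → WeakOver w Φ Reg L) ∧
    -- (4) the leading coefficients are unique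
    (∀ (F : Type) [Field F] [NumberField F] (z z' : ℂ), IsLead w Φ F z → IsLead w Φ F z' →
      z = z') :=
  ⟨fun _ _ _ _ hReg _ _ _ _ _ i n hrel _ _ hc' hz _ hc =>
      (lead_formula hΦ hReg i n hrel hc' hz hc).2.2,
    fun _ _ _ _ _ _ _ _ hdis hReg hReg' h h' _ hc => weak_strong hΦ hdis hReg hReg' h h' hc,
    fun _ _ _ _ h => hyper_weak h, fun _ _ _ _ _ h h' => lead_unique h h'⟩

end Pool.Agent.Results.MP_15b3df_nt.WeakOverTwoFields
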